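import Pool.Agent.X32.Uni.Diff

/-!
# Even numbers as differences `P₂ - p`, uniformly, with narrow progressions of the primes `p`

There is `κ > 0` such that for all `K, k`, `θ, δ > 0` there is `C` such that for all large `X`, ALL even `h` with
`0 < |h| ≤ K X` and all intervals `(A, B]` with `B ≤ X`, `B - A ≥ θ X`: at least `κ (B - A) W` primes `p` of `(A, B]`
are such that `|p + h|` is a prime or a product of two primes, all larger than `X ^ (1 / 9)`, where
`W = ∏_{p ≤ X} (1 - w(p) / p)` is the product of the local densities; and every set of such primes with at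
least `δ (B - A) W` elements contains `k` terms of an arithmetic progression with difference `≤ (log X) ^ C`.
In particular every large even number `h` is a difference `P₂ - p` with `p ≤ ε h`, for any fixed `ε > 0`.
-/

set_option autoImplicit false

namespace Pool.Agent.Results.MP_70e905_nt.ChenDifferences

open Finset

/-- `w(p)`: the number of the residue classes of `0` and `- h` modulo `p` -/
def w (h : ℤ) (p : ℕ) : ℕ := if (p : ℤ) ∣ h then 1 else 2

/-- the product of `1 - w(p) / p` over the primes `p ≤ X` -/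
noncomputable def W (h : ℤ) (X : ℕ) : ℝ := ∏ p ∈ (Icc 1 X).filter Nat.Prime, (1 - (w h p : ℝ) / p)

/-- `|v| > 1`, and `|v|` is a product of at most `r` primes, all of them larger than `y` -/
def Almost (r : ℕ) (y : ℝ) (v : ℤ) : Prop :=
  1 < |v| ∧ v.natAbs.primeFactorsList.length ≤ r ∧ ∀ q : ℕ, q.Prime → (q : ℤ) ∣ v → y < q

open Classical in
/-- the primes `p` of `(A, B]` such that `|p + h|` is a product of at most two primes, all larger than
`X ^ (1 / 9)` -/
noncomputable def G (h : ℤ) (X A B : ℕ) : Finset ℕ :=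
  (Ioc A B).filter (fun p : ℕ => p.Prime ∧ Almost 2 ((X : ℝ) ^ (1 / 9 : ℝ)) ((p : ℤ) + h))

theorem result : ∃ κ : ℝ, 0 < κ ∧ ∀ (K k : ℕ) (θ δ : ℝ), 0 < θ → 0 < δ → ∃ C X₀ : ℕ, ∀ X : ℕ, X₀ ≤ X →
    ∀ h : ℤ, Even h → h ≠ 0 → |h| ≤ K * (X : ℤ) → κ / Real.log X ^ 2 ≤ W h X ∧
      ∀ A B : ℕ, B ≤ X → θ * X ≤ (B : ℝ) - A →
        κ * ((B : ℝ) - A) * W h X ≤ ((G h X A B).card : ℝ) ∧
        ∀ S : Finset ℕ, S ⊆ G h X A B → δ * ((B : ℝ) - A) * W h X ≤ S.card →
          ∃ p d : ℕ, 1 ≤ d ∧ (d : ℝ) ≤ Real.log X ^ C ∧ ∀ l < k, p + l * d ∈ S := by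
  obtain ⟨κ, hκ, H⟩ := Pool.Agent.X32.Uni.diffU
  refine ⟨κ, hκ, fun K k θ δ hθ hδ => ?_⟩
  obtain ⟨⟨X₁, h1⟩, h2⟩ := H θ hθ K
  obtain ⟨C, X₂, h3⟩ := h2 k δ hδ
  refine ⟨C, max X₁ X₂, fun X hX h he h0 hK => ?_⟩
  obtain ⟨h4, h5⟩ := h1 X ((le_max_left _ _).trans hX) h he h0 hK
  exact ⟨h4, fun A B hB hAB => ⟨h5 A B hB hAB, h3 X ((le_max_right _ _).trans hX) h he h0 hK A B hB hAB⟩⟩

end Pool.Agent.Results.MP_70e905_nt.ChenDifferences
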