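import Pool.Agent.X28.NT.Far

/-!
# At every scale: all long ranges of bounded intervals contain a difference of two primes, or almost all even numbers
in bounded windows are differences of two primes

Call `d` a difference at the scale `N` if `p` and `p + d` are both prime for at least `N ^ (1 - η)` numbers `p ≤ 2 N`.
For every large `N` at least one of the following two statements holds, with constants that do not depend on `N`.

(A) Every interval `[h, h + C]` with `h ≤ N / 2` contains a difference at the scale `N` (the intervals reach as far as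
the scale itself: the known results say nothing on `h` of the size of a power of `N`, and not even for `h` which goes to
infinity with `N`).

(B) For even numbers of bounded size more is true than is known: in each window of length `H` (below a given bound `L`)
all even numbers but at most `8 K₀ H ^ (1 - 1 / K₀)` are differences at the scale `N`, and of any `T` classes of `K`
shifts below `L` (the shifts of all the classes together form an admissible set) more than `M` classes are hit at the
same time by primes `n + X g (σ g)`, whenever `(4 - c) M < 2 T` (so, for `T = 2`, two classes are both hit).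

Proof: `Pool.Agent.TH899.UG.Uni.exactL` of the starting files is a coloured Maynard-Tao theorem with `(4 - c) M < T`
for forms whose constant terms may be as large as the variable. Take each of the `T` classes twice, once as it is, once
shifted by a multiple `h'` of a factorial close to an interval without differences at the scale `N`: then the classes
which are hit are all in the same copy, so the number of classes which are needed halves.
-/

set_option autoImplicit false

namespace Pool.Agent.Results.MP_70e905_nt.FarOrNearDifferences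

open Filter

/-- the number of primes `p ≤ 2 N` with `p + d` prime is at least `N ^ (1 - η)` -/
def Dif (N : ℕ) (η : ℝ) (d : ℕ) : Prop :=
  (N : ℝ) ^ (1 - η) ≤ ({p : ℕ | p ≤ 2 * N ∧ p.Prime ∧ (p + d).Prime}.ncard : ℝ)

theorem result :
    ∃ c : ℝ, 0 < c ∧ c < 1 ∧ ∃ K₀ : ℕ, 1 ≤ K₀ ∧
    ∀ T M : ℕ, 1 ≤ T → (4 - c) * M < 2 * T → ∃ K : ℕ, 1 ≤ K ∧
    ∀ L : ℕ, ∃ C : ℕ, ∀ η : ℝ, 0 < η → ∀ᶠ N : ℕ in atTop,
      -- (A)
      (∀ h : ℕ, 2 * h ≤ N → ∃ d : ℕ, h ≤ d ∧ d ≤ h + C ∧ Dif N η d) ∨
      -- (B)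
      ((∀ u H : ℕ, 1 ≤ H → u + H ≤ L →
        ({k : ℕ | u < k ∧ k ≤ u + H ∧ ¬ Dif N η (2 * k)}.ncard : ℝ) ≤
          8 * K₀ * (H : ℝ) ^ (1 - 1 / (K₀ : ℝ))) ∧
      (∀ X : Fin T → Fin K → ℕ, (∀ g i, X g i ≤ L) →
        Function.Injective (fun z : Fin T × Fin K => X z.1 z.2) →
        (∀ p : ℕ, p.Prime → ∃ r : ℤ, ∀ g i, ¬ ((p : ℤ) ∣ r + X g i)) →
        ∃ (S : Finset (Fin T)) (σ : Fin T → Fin K), M + 1 ≤ S.card ∧
          (N : ℝ) ^ (1 - η) ≤
            ({n : ℕ | 1 ≤ n ∧ n ≤ 2 * N ∧ ∀ g ∈ S, (n + X g (σ g)).Prime}.ncard : ℝ))) := by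
  classical
  have hD : ∀ (N : ℕ) (η : ℝ) (d : ℕ), Dif N η d ↔ Pool.Agent.X28.NT.Dif N η d := by
    intro N η d
    unfold Dif Pool.Agent.X28.NT.Dif
    have h1 : {p : ℕ | p ≤ 2 * N ∧ p.Prime ∧ (p + d).Prime} =
        ((Finset.Icc 1 (2 * N)).filter (fun p : ℕ => p.Prime ∧ (p + d).Prime) : Finset ℕ) := by
      ext p
      rw [Finset.coe_filter, Set.mem_setOf_eq, Set.mem_setOf_eq, Finset.mem_Icc]
      constructor
      · rintro ⟨h1, h2, h3⟩
        exact ⟨⟨h2.one_lt.le, h1⟩, h2, h3⟩
      · rintro ⟨⟨-, h1⟩, h2, h3⟩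
        exact ⟨h1, h2, h3⟩
    rw [h1, Set.ncard_coe_finset]
  obtain ⟨c, hc, hc1, K₀, hK₀, H⟩ := Pool.Agent.X28.NT.main
  refine ⟨c, hc, hc1, K₀, hK₀, fun T M hT hTM => ?_⟩
  obtain ⟨K, hK, H⟩ := H T M hT hTM
  refine ⟨K, hK, fun L => ?_⟩
  obtain ⟨C, H⟩ := H L
  refine ⟨C, fun η hη => ?_⟩
  filter_upwards [H η hη] with N hN
  rcases hN with hA | ⟨hB1, hB2⟩
  · left
    intro h hh
    obtain ⟨d, h1, h2, h3⟩ := hA h hh
    exact ⟨d, h1, h2, (hD _ _ _).2 h3⟩
  · right
    refine ⟨fun u L' h1 h2 => ?_, fun X h1 h2 h3 => ?_⟩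
    · have h4 : {k : ℕ | u < k ∧ k ≤ u + L' ∧ ¬ Dif N η (2 * k)} =
          ((Finset.Ioc u (u + L')).filter
            (fun k : ℕ => ¬ Pool.Agent.X28.NT.Dif N η (2 * k)) : Finset ℕ) := by
        ext k
        rw [Finset.coe_filter, Set.mem_setOf_eq, Set.mem_setOf_eq, Finset.mem_Ioc, hD, and_assoc]
      rw [h4, Set.ncard_coe_finset]
      exact hB1 u L' h1 h2
    · obtain ⟨S, σ, hS, h4⟩ := hB2 X h1 h2 h3
      refine ⟨S, σ, hS, ?_⟩
      have h5 : {n : ℕ | 1 ≤ n ∧ n ≤ 2 * N ∧ ∀ g ∈ S, (n + X g (σ g)).Prime} =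
          ((Finset.Icc 1 (2 * N)).filter
            (fun n : ℕ => ∀ g ∈ S, (n + X g (σ g)).Prime) : Finset ℕ) := by
        ext n
        rw [Finset.coe_filter, Set.mem_setOf_eq, Set.mem_setOf_eq, Finset.mem_Icc, and_assoc]
      rw [h5, Set.ncard_coe_finset]
      exact h4

end Pool.Agent.Results.MP_70e905_nt.FarOrNearDifferences
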