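import Mathlib
import Pool.Agent.X34.E.E16
import Pool.Agent.X34.E.E10
import Pool.Agent.X34.E.E4

/-!
# Among the multiples of an even number with multipliers from the differences of 45 numbers

Let `N` be even and `G` a set of 45 natural numbers which misses a class modulo every prime `3 ≤ p ≤ 43` not
dividing `N`. For all large `x` one of the numbers `(g' - g) N`, `g < g'` in `G`, is the gap after at least
`c x / (log x) ^ 45` primes `p ≤ x`, in any given reduced residue class modulo `N`. For every even `N` one of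
`N, 2 N, ..., 106 N` has this property, and one of `N, ..., 44 N` if all primes up to `43` divide `N`.
-/

set_option autoImplicit false

open Finset Filter

namespace Pool.Agent.Results.MP_70e905_nt.FortyFiveMultipliers

/-- at least `c x / (log x) ^ 45` primes `p_n ≤ x`, `p_n ≡ a (mod N)`, have `p_(n+1) - p_n = k N` -/
def Often (N a k : ℕ) (c x : ℝ) : Prop :=
  c * x / Real.log x ^ 45 ≤ (Set.ncard {n : ℕ | (Nat.nth Nat.Prime n : ℝ) ≤ x ∧
    Nat.nth Nat.Prime n ≡ a [MOD N] ∧ Nat.nth Nat.Prime (n + 1) = Nat.nth Nat.Prime n + k * N} : ℝ)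

/-- Let `N` be even and positive and `a` prime to `N`. (1) For every set `G` of 45 natural numbers which
misses a class modulo every prime `3 ≤ p ≤ 43` not dividing `N` there is `c > 0` such that for all large `x`
one of the gaps `(g' - g) N`, `g < g'` in `G`, occurs after at least `c x / (log x) ^ 45` primes
`p ≤ x`, `p ≡ a (mod N)`, and one such gap does this for arbitrarily large `x`. (2) The same for one of the
gaps `N, 2 N, ..., 106 N`, for every even `N`. (3) The same for one of the gaps `N, 2 N, ..., 44 N` if all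
primes up to `43` divide `N`. -/
theorem result (N a : ℕ) (hN : 0 < N) (hev : Even N) (ha : a.Coprime N) :
    (∀ G : Finset ℕ, G.card = 45 → (∀ p : ℕ, p.Prime → 3 ≤ p → p ≤ 43 → ¬ p ∣ N →
        ∃ r : ℕ, ∀ g ∈ G, ¬ g ≡ r [MOD p]) →
      ∃ c : ℝ, 0 < c ∧ (∀ᶠ x : ℝ in atTop, ∃ g ∈ G, ∃ g' ∈ G, g < g' ∧ Often N a (g' - g) c x) ∧
        ∃ g ∈ G, ∃ g' ∈ G, g < g' ∧ ∃ᶠ x : ℝ in atTop, Often N a (g' - g) c x) ∧
    (∃ c : ℝ, 0 < c ∧ (∀ᶠ x : ℝ in atTop, ∃ k : ℕ, 1 ≤ k ∧ k ≤ 106 ∧ Often N a k c x) ∧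
      ∃ k : ℕ, 1 ≤ k ∧ k ≤ 106 ∧ ∃ᶠ x : ℝ in atTop, Often N a k c x) ∧
    ((∀ p : ℕ, p.Prime → p ≤ 43 → p ∣ N) →
      ∃ c : ℝ, 0 < c ∧ (∀ᶠ x : ℝ in atTop, ∃ k : ℕ, 1 ≤ k ∧ k ≤ 44 ∧ Often N a k c x) ∧
        ∃ k : ℕ, 1 ≤ k ∧ k ≤ 44 ∧ ∃ᶠ x : ℝ in atTop, Often N a k c x) := by
  classical
  have gen : ∀ G : Finset ℕ, G.card = 45 → (∀ p : ℕ, p.Prime → 3 ≤ p → p ≤ 43 → ¬ p ∣ N →
        ∃ r : ℕ, ∀ g ∈ G, ¬ g ≡ r [MOD p]) →
      ∃ c : ℝ, 0 < c ∧ (∀ᶠ x : ℝ in atTop, ∃ g ∈ G, ∃ g' ∈ G, g < g' ∧ Often N a (g' - g) c x) ∧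
        ∃ g ∈ G, ∃ g' ∈ G, g < g' ∧ ∃ᶠ x : ℝ in atTop, Often N a (g' - g) c x := by
    intro G hG hloc
    apply Pool.Agent.X34.E.gaps_indexG Pool.Agent.X34.E.dhl45R N a hN ha G hG
    intro p hp hpN
    -- a missed class
    obtain ⟨r, hr⟩ : ∃ r : ℕ, ∀ g ∈ G, ¬ g ≡ r [MOD p] := by
      by_cases h43 : p ≤ 43
      · have h3 : 3 ≤ p := by
          rcases hp.two_le.lt_or_eq with h | h
          · exact h
          · exact absurd (h ▸ hev.two_dvd) hpN
        exact hloc p hp h3 h43 hpN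
      · have h45 : 45 < p := by
          rcases lt_or_ge 45 p with h | h
          · exact h
          · exfalso
            have h1 : p = 44 ∨ p = 45 := by omega
            rcases h1 with rfl | rfl
            · revert hp; decide
            · revert hp; decide
        by_contra hcon
        push Not at hcon
        have h1 : (range p).card ≤ (G.image (fun g => g % p)).card := by
          apply card_le_card
          intro r hr
          obtain ⟨g, hg, hgr⟩ := hcon r
          refine mem_image.2 ⟨g, hg, ?_⟩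
          have h2 : g % p = r % p := hgr
          rw [h2, Nat.mod_eq_of_lt (mem_range.1 hr)]
        have h2 := h1.trans card_image_le
        rw [card_range, hG] at h2
        omega
    -- shift it to the class of 0
    refine ⟨(p - 1) * r, fun g hg hd => hr g hg ?_⟩
    have h1 : (p - 1) * r + g + r = p * r + g := by
      have h2 : (p - 1) * r + r = p * r := by
        have : p = (p - 1) + 1 := by have := hp.one_lt; omega
        conv_rhs => rw [this, Nat.add_mul, one_mul]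
      omega
    have h3 : 0 + r ≡ (p - 1) * r + g + r [MOD p] :=
      Nat.ModEq.add_right r ((Nat.modEq_zero_iff_dvd).2 hd).symm
    rw [h1, zero_add] at h3
    have h4 : p * r + g ≡ 0 + g [MOD p] :=
      Nat.ModEq.add_right g ((Nat.modEq_zero_iff_dvd).2 (dvd_mul_right p r))
    rw [zero_add] at h4
    exact (h3.trans h4).symm
  -- from a set in [0, L] to the multipliers up to L
  have upto : ∀ (L : ℕ) (G : Finset ℕ), (∀ g ∈ G, g ≤ L) →
      (∃ c : ℝ, 0 < c ∧ (∀ᶠ x : ℝ in atTop, ∃ g ∈ G, ∃ g' ∈ G, g < g' ∧ Often N a (g' - g) c x) ∧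
        ∃ g ∈ G, ∃ g' ∈ G, g < g' ∧ ∃ᶠ x : ℝ in atTop, Often N a (g' - g) c x) →
      ∃ c : ℝ, 0 < c ∧ (∀ᶠ x : ℝ in atTop, ∃ k : ℕ, 1 ≤ k ∧ k ≤ L ∧ Often N a k c x) ∧
        ∃ k : ℕ, 1 ≤ k ∧ k ≤ L ∧ ∃ᶠ x : ℝ in atTop, Often N a k c x := by
    rintro L G hL ⟨c, hc, h1, g, hg, g', hg', hlt, h2⟩
    refine ⟨c, hc, ?_, g' - g, by omega, by have := hL g' hg'; omega, h2⟩
    filter_upwards [h1] with x hx
    obtain ⟨g, hg, g', hg', hlt, hx⟩ := hx
    exact ⟨g' - g, by omega, by have := hL g' hg'; omega, hx⟩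
  refine ⟨gen, upto 106 _ Pool.Agent.X34.E.G45_le (gen _ Pool.Agent.X34.E.G45_card
    (fun p hp hp3 _ _ => Pool.Agent.X34.E.G45_loc p hp hp3)), fun hall => ?_⟩
  refine upto 44 (range 45) (fun g hg => by have := mem_range.1 hg; omega) (gen _ (card_range 45) ?_)
  intro p hp _ h43 hpN
  exact absurd (hall p hp h43) hpN

end Pool.Agent.Results.MP_70e905_nt.FortyFiveMultipliers
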