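import Mathlib
import Pool.Agent.X2.TwoDiff
import Pool.Agent.W142.TB.Fin
import Pool.Agent.W473.UBCB
import Pool.Agent.W25.UB.FinalT

/-!
# Linear equations in differences of primes

Let `D` be the set of the differences `p_{n+j} - p_n`, `1 ≤ j ≤ J`, which occur for at least `x ^ (1 - η)`
primes `p_n ≤ x`, `p_n ≡ a (mod q)`, for every `η > 0` and arbitrarily large `x`.  For a suitable absolute
constant `J`, for all squarefree `q` and all `a` prime to `q` and for all multiples `N` of some number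
`M = M(q, a)`:

* every large multiple of `N` is a sum of two elements of `D`, one of which may be chosen bounded;
* every multiple of `N` (positive, zero or negative) is a difference of two elements of `D` in infinitely
  many ways;
* more generally the equations `u d + v d' = n` and `v d' - u d = n` are solvable in `D` for all large, respectively
  for all multiples `n` of `N lcm (u, v)`; in particular every positive rational number is a quotient of two
  elements of `D`; the solutions have positive density in every long window.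

It rests on the theorem `MoreThanHalf` of the starting files of this problem: in every long window more than
one half of the multiples of `N` are in `D`.
-/

set_option autoImplicit false

namespace Pool.Agent.Results.MP_70e905_nt.SumsOfTwoDifferences

open Finset Filter

/-- `d` is the difference `p_{n+j} - p_n` of two primes with `1 ≤ j ≤ J` and `p_n ≡ a (mod q)`, for at least
`x ^ (1 - η)` primes `p_n ≤ x`, for arbitrarily large `x`, for every `η > 0` -/
def PrimeDiff (J q a d : ℕ) : Prop :=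
  ∃ j : ℕ, 1 ≤ j ∧ j ≤ J ∧ ∀ η : ℝ, 0 < η → ∃ᶠ x : ℝ in atTop,
    x ^ (1 - η) ≤ ({n : ℕ | (Nat.nth Nat.Prime n : ℝ) ≤ x ∧ Nat.nth Nat.Prime n ≡ a [MOD q] ∧
      Nat.nth Nat.Prime (n + j) = Nat.nth Nat.Prime n + d}.ncard : ℝ)

/-- **Linear equations in differences of primes.** -/
theorem result : ∃ δ : ℝ, 0 < δ ∧ ∃ J : ℕ, ∀ q a : ℕ, 0 < q → Squarefree q → Nat.Coprime a q →
    ∃ M : ℕ, 0 < M ∧ ∀ N : ℕ, 0 < N → M ∣ N → ∀ u v : ℕ, 0 < u → 0 < v →
      ∀ m : ℕ, m = N * Nat.lcm u v → ∃ L : ℕ,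
      -- every large multiple `n` of `m` is `u d + v d'`, with bounded `d`
      (∀ n : ℕ, L ≤ n → m ∣ n → ∃ d d' : ℕ, PrimeDiff J q a d ∧ PrimeDiff J q a d' ∧
        u * d + v * d' = n ∧ d ≤ L) ∧
      -- every multiple `n` of `m` is `v d' - u d` for infinitely many `d`
      (∀ n : ℕ, m ∣ n → {d : ℕ | PrimeDiff J q a d ∧ ∃ d' : ℕ, PrimeDiff J q a d' ∧
        v * d' = u * d + n}.Infinite) ∧
      -- in every long window a positive proportion of the multiples of `m` are values `u d`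
      (∀ T : ℕ, L ≤ T → ∀ w : ℕ,
        (∀ k : ℕ, w + T < k → δ * T ≤ ({p : ℕ × ℕ | PrimeDiff J q a p.1 ∧ PrimeDiff J q a p.2 ∧
          u * p.1 + v * p.2 = m * k ∧ m * w < u * p.1 ∧ u * p.1 ≤ m * (w + T)}.ncard : ℝ)) ∧
        (∀ h : ℕ, δ * T ≤ ({p : ℕ × ℕ | PrimeDiff J q a p.1 ∧ PrimeDiff J q a p.2 ∧
          v * p.2 = u * p.1 + m * h ∧ m * w < u * p.1 ∧ u * p.1 ≤ m * (w + T)}.ncard : ℝ))) := by
  obtain ⟨δ, hδ, J, H⟩ := Pool.Agent.W142.TB.hfB' (Pool.Agent.W473.UBCB.main Pool.Agent.W25.UB.thmVG)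
  refine ⟨2 * δ, by positivity, J, fun q a hq hsq ha => ?_⟩
  obtain ⟨M, hM, h⟩ := H q a hq hsq ha
  refine ⟨M, hM, fun N hN hMN u v hu hv m hm => ?_⟩
  have hD : ∀ N : ℕ, 0 < N → M ∣ N → ∃ L : ℕ, ∀ T : ℕ, L ≤ T → ∀ w : ℕ,
      (1 / 2 + δ) * (T : ℝ) ≤
        Pool.Agent.X2.TwoDiff.cnt (fun k => PrimeDiff J q a (N * k)) w T := by
    intro N hN hMN
    obtain ⟨L, hL⟩ := h N hN hMN
    exact ⟨L, fun T hT w => hL T hT w⟩
  obtain ⟨L, hL⟩ := Pool.Agent.X2.TwoDiff.two (PrimeDiff J q a) δ M hD N hN hMN u v hu hv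
  rw [← hm] at hL
  have hm0 : 0 < m := by
    rw [hm]; exact Nat.mul_pos hN (Nat.lcm_pos hu hv)
  set T : ℕ := max L 1 with hT
  have hT1 : 1 ≤ T := le_max_right _ _
  have hLT : L ≤ T := le_max_left _ _
  have hpos : (0 : ℝ) < 2 * δ * T := by
    have : (1 : ℝ) ≤ T := by exact_mod_cast hT1
    positivity
  refine ⟨m * (T + 1), ?_, ?_, ?_⟩
  · rintro n hn ⟨k, rfl⟩
    have hk : T + 1 ≤ k := Nat.le_of_mul_le_mul_left hn hm0
    have h1 := (hL T hLT 0).1 k (by omega)
    have h2 : (0 : ℝ) < ({p : ℕ × ℕ | PrimeDiff J q a p.1 ∧ PrimeDiff J q a p.2 ∧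
        u * p.1 + v * p.2 = m * k ∧ m * 0 < u * p.1 ∧ u * p.1 ≤ m * (0 + T)}.ncard : ℝ) :=
      lt_of_lt_of_le hpos h1
    have h3 : {p : ℕ × ℕ | PrimeDiff J q a p.1 ∧ PrimeDiff J q a p.2 ∧
        u * p.1 + v * p.2 = m * k ∧ m * 0 < u * p.1 ∧ u * p.1 ≤ m * (0 + T)}.Nonempty := by
      apply Set.nonempty_of_ncard_ne_zero
      intro h0
      rw [h0] at h2
      simp at h2
    obtain ⟨⟨d, d'⟩, g1, g2, g3, -, g5⟩ := h3
    refine ⟨d, d', g1, g2, g3, ?_⟩
    simp only at g5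
    calc d ≤ u * d := Nat.le_mul_of_pos_left d hu
      _ ≤ m * (0 + T) := g5
      _ ≤ m * (T + 1) := Nat.mul_le_mul_left _ (by omega)
  · rintro n ⟨k, rfl⟩
    rw [Set.infinite_iff_exists_gt] 
    intro c
    have h1 := (hL T hLT (u * c)).2 k
    have h2 : (0 : ℝ) < ({p : ℕ × ℕ | PrimeDiff J q a p.1 ∧ PrimeDiff J q a p.2 ∧
        v * p.2 = u * p.1 + m * k ∧ m * (u * c) < u * p.1 ∧
        u * p.1 ≤ m * (u * c + T)}.ncard : ℝ) :=
      lt_of_lt_of_le hpos h1
    have h3 : {p : ℕ × ℕ | PrimeDiff J q a p.1 ∧ PrimeDiff J q a p.2 ∧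
        v * p.2 = u * p.1 + m * k ∧ m * (u * c) < u * p.1 ∧
        u * p.1 ≤ m * (u * c + T)}.Nonempty := by
      apply Set.nonempty_of_ncard_ne_zero
      intro h0
      rw [h0] at h2
      simp at h2
    obtain ⟨⟨d, d'⟩, g1, g2, g3, g4, -⟩ := h3
    simp only at g3 g4
    refine ⟨d, ⟨g1, d', g2, g3⟩, ?_⟩
    have h5 : u * c < u * d := lt_of_le_of_lt (Nat.le_mul_of_pos_left _ hm0) g4
    exact Nat.lt_of_mul_lt_mul_left h5
  · intro T' hT' w
    have hLT' : L ≤ T' := by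
      have h1 : T + 1 ≤ m * (T + 1) := Nat.le_mul_of_pos_left _ hm0
      omega
    exact hL T' hLT' w

end Pool.Agent.Results.MP_70e905_nt.SumsOfTwoDifferences
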